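import Mathlib

/-!
A real function `L` on the line built from nearly periodic bumps of growing height, and a sparse
sequence of small spikes `xr`. They are used for weighted shifts and weighted translation
semigroups.
-/

set_option autoImplicit false

open Filter Topology

namespace Pool.Agent.R477.DC

noncomputable section

/-- The periods. -/
def z : ℕ → ℕ
  | 0 => 1
  | (n + 1) => 2 * ((n + 1) ^ 2 * (n + 2) ^ 2 * z n)

/-- The half periods. -/
def K (n : ℕ) : ℕ := (n + 1) ^ 2 * (n + 2) ^ 2 * z n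

/-- The distance from the top of the bump to its foot. -/
def D (n : ℕ) : ℕ := (n + 1) * (n + 2) ^ 2 * z n

lemma z_succ (n : ℕ) : z (n + 1) = 2 * K n := rfl

lemma z_pos (n : ℕ) : 0 < z n := by
  induction n with
  | zero => simp [z]
  | succ n ih => simp only [z]; positivity

lemma K_pos (n : ℕ) : 0 < K n := by
  have := z_pos n
  unfold K; positivity

lemma K_eq (n : ℕ) : K n = (n + 1) * D n := by unfold K D; ring

lemma z_dvd_succ (n : ℕ) : z n ∣ z (n + 1) := by
  rw [z_succ, K]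
  exact ⟨2 * ((n + 1) ^ 2 * (n + 2) ^ 2), by ring⟩

lemma z_dvd {m n : ℕ} (h : m ≤ n) : z m ∣ z n := by
  induction n, h using Nat.le_induction with
  | base => exact dvd_rfl
  | succ n _ ih => exact ih.trans (z_dvd_succ n)

lemma z_mono {m n : ℕ} (h : m ≤ n) : z m ≤ z n := Nat.le_of_dvd (z_pos n) (z_dvd h)

lemma z_lt_succ (n : ℕ) : z n < z (n + 1) := by
  rw [z_succ, K]
  have h1 := z_pos n
  have h2 : 1 ≤ (n + 1) ^ 2 * (n + 2) ^ 2 := Nat.succ_le_of_lt (by positivity)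
  nlinarith

lemma z_strictMono : StrictMono z := strictMono_nat_of_lt_succ z_lt_succ

lemma le_z (n : ℕ) : n < z n := by
  induction n with
  | zero => simp [z]
  | succ n ih => exact Nat.lt_of_le_of_lt ih (z_lt_succ n)

lemma K_strictMono : StrictMono K := by
  apply strictMono_nat_of_lt_succ
  intro n
  have h1 : z (n + 1) = 2 * K n := z_succ n
  have h2 : K (n + 1) = (n + 1 + 1) ^ 2 * (n + 1 + 2) ^ 2 * z (n + 1) := rfl
  rw [h2, h1]
  have h3 := K_pos n
  have h4 : 1 ≤ (n + 1 + 1) ^ 2 * (n + 1 + 2) ^ 2 := Nat.succ_le_of_lt (by positivity)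
  nlinarith

/-- The slopes. -/
def s (n : ℕ) : ℝ := 1 / ((n + 1) * z n)

lemma s_pos (n : ℕ) : 0 < s n := by
  have := z_pos n
  unfold s; positivity

lemma s_mul_le {n : ℕ} {t : ℝ} (h : t ≤ (n + 1) * z n) : s n * t ≤ 1 := by
  have h1 := z_pos n
  unfold s
  rw [div_mul_eq_mul_div, one_mul, div_le_one (by positivity)]
  exact h

lemma s_le_one (n : ℕ) : s n ≤ 1 := by
  have h1 : (1 : ℝ) ≤ z n := by exact_mod_cast z_pos n
  have := s_mul_le (n := n) (t := 1) (by nlinarith [Nat.cast_nonneg (α := ℝ) n])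
  simpa using this

/-- The tops of the bumps. -/
def A (n : ℕ) : Set ℝ := Set.range fun i : ℤ => (K n : ℝ) + i * z (n + 1)

lemma A_nonempty (n : ℕ) : (A n).Nonempty := Set.range_nonempty _

/-- The bumps. -/
def g (n : ℕ) (u : ℝ) : ℝ := max 0 (((n : ℝ) + 2) ^ 2 - s n * Metric.infDist u (A n))

lemma g_nonneg (n : ℕ) (u : ℝ) : 0 ≤ g n u := le_max_left _ _

lemma g_le (n : ℕ) (u : ℝ) : g n u ≤ ((n : ℝ) + 2) ^ 2 := by
  apply max_le (by positivity)
  have := mul_nonneg (s_pos n).le (Metric.infDist_nonneg (x := u) (s := A n))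
  linarith

lemma g_lip (n : ℕ) (u v : ℝ) : g n u ≤ g n v + s n * |u - v| := by
  have h1 := Metric.infDist_le_infDist_add_dist (s := A n) (x := v) (y := u)
  rw [Real.dist_eq, abs_sub_comm] at h1
  have h2 := mul_le_mul_of_nonneg_left h1 (s_pos n).le
  have h3 : 0 ≤ s n * |u - v| := mul_nonneg (s_pos n).le (abs_nonneg _)
  apply max_le
  · have := g_nonneg n v
    linarith
  · have : ((n : ℝ) + 2) ^ 2 - s n * Metric.infDist v (A n) ≤ g n v := le_max_right _ _
    nlinarith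

/-- `u` is at distance at least `D n` from the tops of the `n`-th bump. -/
lemma dist_A {n : ℕ} {u : ℝ} (h0 : 0 ≤ u) (h1 : u ≤ (K n : ℝ) - D n) :
    (D n : ℝ) ≤ Metric.infDist u (A n) := by
  rw [Metric.le_infDist (A_nonempty n)]
  rintro _ ⟨i, rfl⟩
  have hK : (0 : ℝ) < K n := by exact_mod_cast K_pos n
  have hz : (z (n + 1) : ℝ) = 2 * K n := by rw [z_succ]; push_cast; ring
  have hDK : (D n : ℝ) ≤ K n := by
    rw [K_eq]; push_cast
    nlinarith [Nat.cast_nonneg (α := ℝ) n, Nat.cast_nonneg (α := ℝ) (D n)]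
  rw [Real.dist_eq, hz]
  rcases le_or_gt 0 i with hi | hi
  · have : (0 : ℝ) ≤ i := by exact_mod_cast hi
    rw [abs_sub_comm]
    refine le_trans ?_ (le_abs_self _)
    nlinarith
  · have : (i : ℝ) ≤ -1 := by
      have : i ≤ -1 := by omega
      exact_mod_cast this
    refine le_trans ?_ (le_abs_self _)
    nlinarith

lemma s_mul_D (n : ℕ) : s n * D n = ((n : ℝ) + 2) ^ 2 := by
  have h1 : (0 : ℝ) < z n := by exact_mod_cast z_pos n
  unfold s D
  push_cast
  field_simp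

lemma g_eq_zero {n : ℕ} {u : ℝ} (h0 : 0 ≤ u) (h1 : u ≤ (K n : ℝ) - D n) : g n u = 0 := by
  apply max_eq_left
  have h2 := mul_le_mul_of_nonneg_left (dist_A h0 h1) (s_pos n).le
  rw [s_mul_D] at h2
  linarith

lemma D_le_K (n : ℕ) : (D n : ℝ) ≤ K n := by
  rw [K_eq]; push_cast
  nlinarith [Nat.cast_nonneg (α := ℝ) n, Nat.cast_nonneg (α := ℝ) (D n)]

lemma g_zero (n : ℕ) : g n 0 = 0 := g_eq_zero le_rfl (by linarith [D_le_K n])

lemma g_le_mul {n : ℕ} {u : ℝ} (h0 : 0 ≤ u) : g n u ≤ s n * u := by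
  have := g_lip n u 0
  rwa [g_zero, zero_add, sub_zero, abs_of_nonneg h0] at this

/-- The exponent. -/
def L (u : ℝ) : ℝ := ⨆ n, g n u

lemma bdd {u : ℝ} (h0 : 0 ≤ u) : BddAbove (Set.range fun n => g n u) := by
  refine ⟨u, ?_⟩
  rintro _ ⟨n, rfl⟩
  have h1 := g_le_mul (n := n) h0
  have h2 := mul_le_mul_of_nonneg_right (s_le_one n) h0
  simp only
  linarith

lemma g_le_L (n : ℕ) {u : ℝ} (h0 : 0 ≤ u) : g n u ≤ L u := le_ciSup (bdd h0) n

lemma L_le {u c : ℝ} (h : ∀ n, g n u ≤ c) : L u ≤ c := ciSup_le h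

lemma L_lip {u v : ℝ} (hv : 0 ≤ v) : L u ≤ L v + |u - v| := by
  refine L_le fun n => ?_
  have h1 := g_lip n u v
  have h2 := g_le_L n hv
  have h3 := mul_le_mul_of_nonneg_right (s_le_one n) (abs_nonneg (u - v))
  linarith

lemma L_period (m : ℕ) {u : ℝ} (hu : 0 ≤ u) : L (u + z m) ≤ L u + 1 := by
  refine L_le fun n => ?_
  rcases le_or_gt m n with h | h
  · have h1 := g_lip n (u + z m) u
    rw [add_sub_cancel_left, abs_of_nonneg (Nat.cast_nonneg _)] at h1
    have h2 := g_le_L n hu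
    have h3 : s n * (z m : ℝ) ≤ 1 := by
      apply s_mul_le
      have h4 : (z m : ℝ) ≤ z n := by exact_mod_cast z_mono h
      nlinarith [Nat.cast_nonneg (α := ℝ) n, Nat.cast_nonneg (α := ℝ) (z n)]
    linarith
  · have h1 : Metric.infDist u (A n) ≤ Metric.infDist (u + z m) (A n) := by
      rw [Metric.le_infDist (A_nonempty n)]
      rintro _ ⟨i, rfl⟩
      obtain ⟨q, hq⟩ := z_dvd (Nat.succ_le_of_lt h)
      have h2 : ((K n : ℝ) + (i - q : ℤ) * z (n + 1)) ∈ A n := ⟨i - q, rfl⟩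
      have h3 := Metric.infDist_le_dist_of_mem (x := u) h2
      refine h3.trans (le_of_eq ?_)
      rw [Real.dist_eq, Real.dist_eq]
      have h4 : (z m : ℝ) = z (n + 1) * q := by
        have : z m = z (n + 1) * q := hq
        exact_mod_cast this
      congr 1
      rw [h4]; push_cast; ring
    have h2 : g n (u + z m) ≤ g n u := by
      apply max_le (g_nonneg n u)
      refine le_trans ?_ (le_max_right _ _)
      have := mul_le_mul_of_nonneg_left h1 (s_pos n).le
      linarith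
    have h3 := g_le_L n hu
    linarith

lemma L_K_ge (n : ℕ) {u : ℝ} (hu : 0 ≤ u) (h : |u - K n| ≤ (n + 1) * z n) :
    ((n : ℝ) + 2) ^ 2 - 1 ≤ L u := by
  have h1 : (K n : ℝ) ∈ A n := ⟨0, by push_cast; ring⟩
  have h2 := Metric.infDist_le_dist_of_mem (x := u) h1
  rw [Real.dist_eq] at h2
  have h3 : s n * Metric.infDist u (A n) ≤ 1 := s_mul_le (h2.trans h)
  have h4 : ((n : ℝ) + 2) ^ 2 - s n * Metric.infDist u (A n) ≤ g n u := le_max_right _ _
  have h5 := g_le_L n hu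
  linarith

lemma L_K_ge' (n : ℕ) : ((n : ℝ) + 2) ^ 2 ≤ L (K n) := by
  have h1 : (K n : ℝ) ∈ A n := ⟨0, by push_cast; ring⟩
  have h2 : Metric.infDist (K n : ℝ) (A n) = 0 := Metric.infDist_zero_of_mem h1
  have h4 : ((n : ℝ) + 2) ^ 2 - s n * Metric.infDist (K n : ℝ) (A n) ≤ g n (K n) :=
    le_max_right _ _
  have h5 := g_le_L n (u := (K n : ℝ)) (Nat.cast_nonneg _)
  rw [h2, mul_zero, sub_zero] at h4
  linarith

lemma g_far {m n : ℕ} (h : n < m) {u : ℝ} (h0 : 0 ≤ u) (hu : u ≤ K n) : g m u ≤ 1 := by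
  refine (g_le_mul h0).trans (s_mul_le (hu.trans ?_))
  have h1 : (K n : ℝ) ≤ z (n + 1) := by
    rw [z_succ]; push_cast
    linarith [Nat.cast_nonneg (α := ℝ) (K n)]
  have h2 : (z (n + 1) : ℝ) ≤ z m := by exact_mod_cast z_mono (Nat.succ_le_of_lt h)
  nlinarith [Nat.cast_nonneg (α := ℝ) m, Nat.cast_nonneg (α := ℝ) (z m)]

lemma L_K_le (n : ℕ) : L (K n) ≤ ((n : ℝ) + 2) ^ 2 := by
  refine L_le fun m => ?_
  rcases le_or_gt m n with h | h
  · have h1 := g_le m (K n)
    have h2 : (m : ℝ) ≤ n := by exact_mod_cast h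
    have h3 : (0 : ℝ) ≤ m := Nat.cast_nonneg _
    nlinarith
  · have h1 := g_far h (u := (K n : ℝ)) (Nat.cast_nonneg _) le_rfl
    nlinarith [Nat.cast_nonneg (α := ℝ) n]

lemma L_foot (n : ℕ) {u : ℝ} (h0 : 0 ≤ u) (h1 : u ≤ (K n : ℝ) - D n) :
    L u ≤ ((n : ℝ) + 1) ^ 2 := by
  refine L_le fun m => ?_
  rcases lt_trichotomy m n with h | h | h
  · have h1 := g_le m u
    have h2 : (m : ℝ) + 1 ≤ n := by exact_mod_cast h
    have h3 : (0 : ℝ) ≤ m := Nat.cast_nonneg _
    nlinarith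
  · subst h
    rw [g_eq_zero h0 h1]
    positivity
  · have h2 := g_far h (u := u) h0 (by linarith [Nat.cast_nonneg (α := ℝ) (D n)])
    nlinarith [Nat.cast_nonneg (α := ℝ) n]

/-- The spikes. -/
def xr (u : ℝ) : ℝ := ⨆ n : ℕ, (1 / 2 : ℝ) ^ n * max 0 (1 - |u - K n|)

lemma sp_nonneg (n : ℕ) (u : ℝ) : 0 ≤ (1 / 2 : ℝ) ^ n * max 0 (1 - |u - K n|) :=
  mul_nonneg (by positivity) (le_max_left _ _)

lemma sp_le (n : ℕ) (u : ℝ) : (1 / 2 : ℝ) ^ n * max 0 (1 - |u - K n|) ≤ (1 / 2 : ℝ) ^ n := by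
  apply mul_le_of_le_one_right (by positivity)
  exact max_le zero_le_one (by linarith [abs_nonneg (u - K n)])

lemma xbdd (u : ℝ) : BddAbove (Set.range fun n : ℕ => (1 / 2 : ℝ) ^ n *
    max 0 (1 - |u - K n|)) := by
  refine ⟨1, ?_⟩
  rintro _ ⟨n, rfl⟩
  exact (sp_le n u).trans (pow_le_one₀ (by norm_num) (by norm_num))

lemma sp_le_xr (n : ℕ) (u : ℝ) : (1 / 2 : ℝ) ^ n * max 0 (1 - |u - K n|) ≤ xr u :=
  le_ciSup (xbdd u) n

lemma xr_nonneg (u : ℝ) : 0 ≤ xr u := (sp_nonneg 0 u).trans (sp_le_xr 0 u)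

lemma xr_K (n : ℕ) : (1 / 2 : ℝ) ^ n ≤ xr (K n) := by
  have := sp_le_xr n (K n)
  rwa [sub_self, abs_zero, sub_zero, max_eq_right zero_le_one, mul_one] at this

lemma xr_lip (u v : ℝ) : xr u ≤ xr v + |u - v| := by
  refine ciSup_le fun n => ?_
  have h1 := sp_le_xr n v
  have h2 : |v - K n| ≤ |u - K n| + |u - v| := by
    have := abs_sub_le v u (K n : ℝ)
    rw [abs_sub_comm v u] at this
    linarith
  have h3 : max 0 (1 - |u - K n|) ≤ max 0 (1 - |v - K n|) + |u - v| := by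
    apply max_le
    · have := le_max_left 0 (1 - |v - K n|)
      linarith [abs_nonneg (u - v)]
    · have := le_max_right 0 (1 - |v - K n|)
      linarith
  have h4 : (0 : ℝ) ≤ (1 / 2 : ℝ) ^ n := by positivity
  have h5 : (1 / 2 : ℝ) ^ n ≤ 1 := pow_le_one₀ (by norm_num) (by norm_num)
  have h6 := mul_le_mul_of_nonneg_left h3 h4
  have h7 := mul_le_mul_of_nonneg_right h5 (abs_nonneg (u - v))
  linarith

lemma xr_continuous : Continuous xr := by
  rw [Metric.continuous_iff]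
  intro v ε hε
  refine ⟨ε, hε, fun u hu => ?_⟩
  rw [Real.dist_eq] at hu ⊢
  rw [abs_lt]
  have h1 := xr_lip u v
  have h2 := xr_lip v u
  rw [abs_sub_comm] at h2
  constructor <;> linarith

lemma L_continuousOn : ContinuousOn L (Set.Ici 0) := by
  rw [Metric.continuousOn_iff]
  intro v hv ε hε
  refine ⟨ε, hε, fun u hu huv => ?_⟩
  rw [Real.dist_eq] at huv ⊢
  rw [abs_lt]
  have h1 := L_lip (u := u) hv
  have h2 := L_lip (u := v) hu
  rw [abs_sub_comm] at h2
  constructor <;> linarith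

/-- The spikes beyond the first ones are small. -/
lemma xr_small {n : ℕ} {u : ℝ} (h : (K n : ℝ) + 1 ≤ u) : xr u ≤ (1 / 2 : ℝ) ^ (n + 1) := by
  refine ciSup_le fun m => ?_
  rcases le_or_gt m n with h1 | h1
  · have h2 : (K m : ℝ) ≤ K n := by exact_mod_cast K_strictMono.monotone h1
    have h3 : 1 - |u - K m| ≤ 0 := by
      have := le_abs_self (u - K m)
      linarith
    rw [max_eq_left h3, mul_zero]
    positivity
  · refine (sp_le m u).trans ?_
    exact pow_le_pow_of_le_one (by norm_num) (by norm_num) h1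

/-- Key upper bound. -/
lemma small {n : ℕ} {t u : ℝ} (hu : 0 ≤ u) (h1 : (K n : ℝ) + 1 ≤ t)
    (h2 : t ≤ (n + 1) * z (n + 1)) :
    xr (u + t) * Real.exp (L (u + t) - L u) ≤ Real.exp 2 * (1 / 2 : ℝ) ^ n := by
  have ht : 0 ≤ t := by linarith [Nat.cast_nonneg (α := ℝ) (K n)]
  have key : ∀ m : ℕ, (1 / 2 : ℝ) ^ m * max 0 (1 - |u + t - K m|) ≤
      Real.exp 2 * (1 / 2 : ℝ) ^ n * Real.exp (-(L (u + t) - L u)) := by
    intro m
    have hpos : 0 ≤ Real.exp 2 * (1 / 2 : ℝ) ^ n * Real.exp (-(L (u + t) - L u)) := by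
      positivity
    rcases le_or_gt m n with h | h
    · have h3 : (K m : ℝ) ≤ K n := by exact_mod_cast K_strictMono.monotone h
      have h4 : 1 - |u + t - K m| ≤ 0 := by
        have := le_abs_self (u + t - K m)
        linarith
      rw [max_eq_left h4, mul_zero]
      exact hpos
    · rcases le_or_gt 1 |u + t - K m| with h3 | h3
      · rw [max_eq_left (by linarith), mul_zero]
        exact hpos
      · have h4 : L (u + t) ≤ ((m : ℝ) + 2) ^ 2 + 1 := by
          have h5 := L_lip (u := u + t) (v := (K m : ℝ)) (Nat.cast_nonneg _)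
          have h6 := L_K_le m
          linarith
        have h5 : ((m : ℝ) + 2) ^ 2 - 1 ≤ L u := by
          apply L_K_ge m hu
          have h6 : |u - K m| ≤ t + 1 := by
            rw [abs_lt] at h3
            rw [abs_le]
            constructor <;> linarith
          refine h6.trans ?_
          have h7 : (z (n + 1) : ℝ) ≤ z m := by exact_mod_cast z_mono (Nat.succ_le_of_lt h)
          have h8 : (n : ℝ) + 1 ≤ m := by exact_mod_cast h
          have h9 : (1 : ℝ) ≤ z (n + 1) := by exact_mod_cast z_pos (n + 1)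
          have h10 : (0 : ℝ) ≤ n := Nat.cast_nonneg _
          nlinarith
        have h6 : L (u + t) - L u ≤ 2 := by linarith
        have h7 : Real.exp 2 * Real.exp (-(L (u + t) - L u)) ≥ 1 := by
          rw [← Real.exp_add]
          exact Real.one_le_exp (by linarith)
        have h8 : (1 / 2 : ℝ) ^ m ≤ (1 / 2 : ℝ) ^ n :=
          pow_le_pow_of_le_one (by norm_num) (by norm_num) h.le
        have h9 : (0 : ℝ) ≤ (1 / 2 : ℝ) ^ n := by positivity
        calc (1 / 2 : ℝ) ^ m * max 0 (1 - |u + t - K m|) ≤ (1 / 2 : ℝ) ^ m := sp_le m _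
          _ ≤ (1 / 2 : ℝ) ^ n := h8
          _ ≤ (1 / 2 : ℝ) ^ n * (Real.exp 2 * Real.exp (-(L (u + t) - L u))) :=
            le_mul_of_one_le_right h9 h7
          _ = _ := by ring
  have h3 : xr (u + t) ≤ Real.exp 2 * (1 / 2 : ℝ) ^ n * Real.exp (-(L (u + t) - L u)) :=
    ciSup_le key
  calc xr (u + t) * Real.exp (L (u + t) - L u)
      ≤ Real.exp 2 * (1 / 2 : ℝ) ^ n * Real.exp (-(L (u + t) - L u)) *
        Real.exp (L (u + t) - L u) := mul_le_mul_of_nonneg_right h3 (Real.exp_pos _).le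
    _ = Real.exp 2 * (1 / 2 : ℝ) ^ n := by
      rw [mul_assoc, ← Real.exp_add, neg_add_cancel, Real.exp_zero, mul_one]

/-- Key lower bound. -/
lemma large {n : ℕ} {t : ℝ} (h1 : (D n : ℝ) ≤ t) (h2 : t ≤ K n) :
    (n : ℝ) + 1 ≤ xr (K n) * Real.exp (L (K n) - L (K n - t)) := by
  have h3 := L_K_ge' n
  have h4 := L_foot n (u := K n - t) (by linarith) (by linarith)
  have h5 : 2 * ((n : ℝ) + 1) ≤ L (K n) - L (K n - t) := by nlinarith
  have h6 : (4 : ℝ) ^ (n + 1) ≤ Real.exp (2 * ((n : ℝ) + 1)) := by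
    have h7 : Real.exp (2 * ((n : ℝ) + 1)) = (Real.exp 1 ^ 2) ^ (n + 1) := by
      rw [← pow_mul, ← Real.exp_nat_mul]
      congr 1
      push_cast
      ring
    rw [h7]
    have h8 : (2 : ℝ) ≤ Real.exp 1 := by
      have := Real.add_one_le_exp (1 : ℝ)
      linarith
    have h9 : (4 : ℝ) ≤ Real.exp 1 ^ 2 := by nlinarith
    exact pow_le_pow_left₀ (by norm_num) h9 _
  have h7 : (n : ℝ) + 1 ≤ 2 ^ n := by
    have : n + 1 ≤ 2 ^ n := Nat.lt_two_pow_self
    exact_mod_cast this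
  calc (n : ℝ) + 1 ≤ 2 ^ n := h7
    _ ≤ (1 / 2 : ℝ) ^ n * 4 ^ (n + 1) := by
      rw [pow_succ, show (4 : ℝ) = 2 * 2 by norm_num, mul_pow, one_div, inv_pow]
      have : (0 : ℝ) < 2 ^ n := by positivity
      field_simp
      norm_num
    _ ≤ (1 / 2 : ℝ) ^ n * Real.exp (L (K n) - L (K n - t)) := by
      apply mul_le_mul_of_nonneg_left _ (by positivity)
      exact h6.trans (Real.exp_le_exp.2 h5)
    _ ≤ _ := mul_le_mul_of_nonneg_right (xr_K n) (Real.exp_pos _).le

end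

end Pool.Agent.R477.DC
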